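import Pool.Agent.L0h82.CE.Pol

/-!
# The elimination variant of `k`-click Clickomania is `W[2]`-hard

The definitions used in the statement are in `Pool.Agent.Q206.CK.Defs`,
`Pool.Agent.H557R2.FptDefs` and `Pool.Agent.L0h82.CE.Defs`:
* `Board`, `Click`, `Clicks`: the boards, the clicks (the removal of a group of at least two tiles,
  after which the tiles fall down and the empty columns are deleted), sequences of clicks;
* `elimProblem`: given a board, can at most `k` clicks remove all tiles?  The parameter is `k`;
  `elimProblemColours c`: the same for boards with `c` colours;
* `PProblem`, `FptReduces`, `W1`: parameterized problems, fpt-reducibility (by Turing machines) and
  the class `W[1]`; `pDominatingSet`, `W2`, `W2Hard`: `p-Dominating-Set`, the class `W[2]` and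
  hardness for it.

## The reduction

Let a graph with the vertices `0, ..., n - 1` and a number `k` be given. There are `n + 1` sets (the
closed neighbourhoods of the vertices and an empty set). The board consists of the columns
`0, ..., 2 R n` with `R = k + 4`, a blocker and a strip. Each column `0, ..., 2 R n` starts with a
layer of colour `0` for each set, each of them followed by a separator of colour `1`; in the odd
columns, the columns `c` with `c / 2 / R = u` belonging to the vertex `u`, the layers of the sets
containing `u` have one more tile. Above the layers there are a bar of colour `3` and one tile of
colour `2` in the even columns, and a connector of colour `3`, one tile of colour `0` and one tile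
`T` of colour `3` in the odd columns. The lengths are such that all bars and connectors are joined,
and `T` is joined to the bars if and only if a layer of a set containing `u` has been removed. The
blocker is a column of colour `3`, also joined to the bars, and the strip a column of colour `1`
with a tile of colour `2` on top.

If `D` is a dominating set, then one removes the layers of the sets in `D`, then all tiles of the
colour `3` (now they form one group; the blocker disappears, and the strip joins the separators),
then all tiles of colour `1`, all tiles of colour `0`, and all tiles of colour `2`. These are
`|D| + 4` clicks.

Conversely, before the first click on a bar no column disappears, and `r` clicks on layers and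
separators remove at most `r` layers of colour `0`. After the first click on a bar the tiles `T` of
a vertex which is not dominated remain. They are alone of their colour in their columns, and so are
the tiles of colour `2` in the even columns between them; such a sequence of columns can only be
attacked at its two ends, by one column in each click, so that it is not removed by `k + 3` clicks.
As at least one click on each of the remaining colours is necessary, at most `k` clicks on layers
are possible.
-/

namespace Pool.Agent.Results.MP_e74eef_lc.EliminationWTwoHard

open Pool.Agent.H557R2.Fpt Pool.Agent.Q206.CK Pool.Agent.L0h82.CE

/-- **`k`-Click Elimination-Variant Clickomania is `W[2]`-hard**, already for boards with four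
colours; hence it is not in `W[1]` unless `W[2]` is contained in `W[1]`. -/
theorem result : W2Hard elimProblem ∧ W2Hard (elimProblemColours 4) ∧
    (elimProblem ∈ W1 → W2 ⊆ W1) ∧ (elimProblemColours 4 ∈ W1 → W2 ⊆ W1) :=
  ⟨w2Hard_elim, w2Hard_elim_colours, collapse w2Hard_elim, collapse w2Hard_elim_colours⟩

end Pool.Agent.Results.MP_e74eef_lc.EliminationWTwoHard
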